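import Pool.Agent.J6H77.Mdim.Main

/-!
# The multiset dimension of all cylinders `C_n □ P_m`, `n ≥ 4`, `m ≥ 1`

Definitions (file `Pool/Agent/J6H77/Mdim/Graph.lean`):
* `cyl n m` is the box product of Mathlib's `cycleGraph n` and `pathGraph m`
  (the path with `m` vertices);
* `msRep G S v` is the multiset of the distances `G.dist v s`, `s ∈ S`;
* `IsMsResolving G S` : `msRep G S` is injective on the vertices;
* `mdim G : ℕ∞` is the least size of a multiset resolving set, `⊤` if there is none.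
-/

namespace Pool.Agent.Results.MP_f7c741_co.Cylinder

open Pool.Agent.J6H77.Mdim

theorem result (n m : ℕ) (hn : 4 ≤ n) (hm : 1 ≤ m) :
    mdim (cyl n m) =
      if n ≤ 5 ∧ m ≤ 2 then ⊤
      else if m = 1 ∨ (Even m ∧ 6 * m - 1 ≤ n ∧ n ≠ 6 * m + 1) ∨
          (Odd m ∧ 6 * m ≤ n ∧ n ≠ 6 * m + 2) then 3
      else if (n, m) ∈ ({(4, 3), (4, 4), (5, 3), (5, 4), (6, 2), (6, 3), (6, 4), (6, 5),
          (7, 2), (7, 3), (7, 5)} : Finset (ℕ × ℕ)) then 5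
      else 4 := by
  have h := main n m hn hm
  have e1 : (m = 1 ∨ (Even m ∧ 6 * m - 1 ≤ n ∧ n ≠ 6 * m + 1) ∨
      (Odd m ∧ 6 * m ≤ n ∧ n ≠ 6 * m + 2)) ↔
      (m = 1 ∨ (m % 2 = 0 ∧ 6 * m ≤ n + 1 ∧ n ≠ 6 * m + 1) ∨
      (m % 2 = 1 ∧ 6 * m ≤ n ∧ n ≠ 6 * m + 2)) := by
    rw [Nat.even_iff, Nat.odd_iff]
    omega
  have e2 : (n, m) ∈ ({(4, 3), (4, 4), (5, 3), (5, 4), (6, 2), (6, 3), (6, 4), (6, 5),
      (7, 2), (7, 3), (7, 5)} : Finset (ℕ × ℕ)) ↔ (n, m) ∈ exc := by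
    simp [exc]
  simp only [e1, e2]
  exact h

end Pool.Agent.Results.MP_f7c741_co.Cylinder
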